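import Pool.Agent.Helper79.DG.Fin

/-! An operation that makes new complexity functions of recurrent words from old ones. -/

namespace Pool.Agent.Results.MP_7c7486_co.ClosureOperation

open Pool.Agent.Helper79.CF Pool.Agent.Helper79.DG

/-- Let `v` be a recurrent infinite word over the finite alphabet `C`, let `k ≥ 1`, and let `m` be a
sequence of natural numbers with `m n ≤ k * complexity v n` for all `n` and `m n > 0` for
infinitely many `n`. Then there is a recurrent infinite word `u` over the alphabet of `C` and `k` new
letters whose first differences `complexity u (n + 1) - complexity u n` are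
`complexity v (n + 1) + k * complexity v n - 1 + ∑ j ∈ Finset.range n, m j`. -/
theorem result {C : Type} [Fintype C] (v : ℕ → C) (hv : Rec v) (k : ℕ) (hk : 1 ≤ k) (m : ℕ → ℕ)
    (hm : ∀ n, m n ≤ k * complexity v n) (hinf : ∀ N, ∃ n, N ≤ n ∧ 0 < m n) :
    ∃ u : ℕ → C ⊕ Fin k, Rec u ∧ ∀ n, complexity u (n + 1) + 1 = complexity u n +
      complexity v (n + 1) + k * complexity v n + ∑ j ∈ Finset.range n, m j :=
  Pool.Agent.Helper79.DG.closure v hv k hk m hm hinf

end Pool.Agent.Results.MP_7c7486_co.ClosureOperation
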