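import Pool.Agent.CF2.FIN

/-! The set of the complexity functions of the infinite words over an alphabet with at least two
letters is a complete analytic set, already among the functions of at most linear growth. -/

namespace Pool.Agent.Results.MP_7c7486_co.CompleteAnalyticAll

open MeasureTheory Pool.Agent.Helper79.CF

/-- Let `A` be a finite alphabet with at least two letters, and `P` the set of the factor complexity
functions of all infinite words over `A`. `P` is analytic; every analytic set of functions from `ℕ`
to `ℕ` is the inverse image of `P` under a continuous map whose values `f` all satisfy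
`f n ≤ 22 * n + 1`; and no Borel set contains the same functions `f` of this kind as `P`. -/
theorem result (A : Type*) [Fintype A] (hA : 2 ≤ Fintype.card A) :
    AnalyticSet (Set.range fun u : ℕ → A => complexity u) ∧
      (∀ S : Set (ℕ → ℕ), AnalyticSet S → ∃ Φ : (ℕ → ℕ) → ℕ → ℕ, Continuous Φ ∧
        (∀ z n, Φ z n ≤ 22 * n + 1) ∧
        Φ ⁻¹' (Set.range fun u : ℕ → A => complexity u) = S) ∧
      ∀ B : Set (ℕ → ℕ), @MeasurableSet (ℕ → ℕ) (borel (ℕ → ℕ)) B →
        ∃ f : ℕ → ℕ, (∀ n, f n ≤ 22 * n + 1) ∧
          ¬ (f ∈ B ↔ f ∈ Set.range fun u : ℕ → A => complexity u) :=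
  Pool.Agent.CF2.final A hA

end Pool.Agent.Results.MP_7c7486_co.CompleteAnalyticAll
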