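import Pool.Agent.Helper79.DG.Mas

/-! A family of complexity functions of recurrent words, one for each set of pairs of a letter and a
finite word, given exactly by the counting functions of that set. -/

namespace Pool.Agent.Results.MP_7c7486_co.LanguageFormula

open Pool.Agent.Helper79.CF Pool.Agent.Helper79.DG

/-- Let `C` and `X` be finite alphabets and `P` a nonempty set of pairs of a letter of `X` and a
finite word over `C`. There is a recurrent infinite word `u` over the disjoint union of `C` and `X` such
that, for every `n`, the difference `complexity u (n + 1) - complexity u n` is
`i (n + 1) - i n + b n + t n - 1 + ∑ j ∈ Finset.range n, l j`, where `i n` is the number of words of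
length `n` that are factors of the second component of a pair in `P`, `t n` the number of those that
are endings of such a component, `b n` the number of pairs of a letter and a beginning of length `n`
of a second component to this letter, and `l n` the number of pairs in `P` whose second component has
length `n`. -/
theorem result {C X : Type} [Fintype C] [Fintype X] (P : Set (X × List C)) (hP : P.Nonempty) :
    ∃ u : ℕ → C ⊕ X, Rec u ∧ ∀ n, complexity u (n + 1) + (inner P n).ncard + 1 =
      complexity u n + (inner P (n + 1)).ncard + (beginnings P n).ncard + (endings P n).ncard +
        ∑ j ∈ Finset.range n, (level P j).ncard :=
  Pool.Agent.Helper79.DG.master P hP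

end Pool.Agent.Results.MP_7c7486_co.LanguageFormula
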