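import Pool.Agent.Helper79.DG.FinR

/-! Functions with second differences between `f 1 * (c - 1) * c ^ n` and `c ^ (n + 1) * (f 1 - 1)`
are factor complexity functions of recurrent infinite words. -/

namespace Pool.Agent.Results.MP_7c7486_co.SecondDifferences

open Pool.Agent.Helper79.CF
open Pool.Agent.Helper79.DG (Rec)

/-- Let `A` be a finite alphabet, `c ≥ 1` and `f : ℕ → ℕ` with `f 0 = 1`, with `c < f 1`, with
`f 1` at most the number of letters of `A`, and with all second differences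
`f (n + 2) - 2 * f (n + 1) + f n` between `f 1 * (c - 1) * c ^ n` and `c ^ (n + 1) * (f 1 - 1)`,
where, if `c ≥ 2`, the lower bound is exceeded for infinitely many `n`. Then `f` is the factor
complexity function of a recurrent infinite word over `A`. -/
theorem result (A : Type*) [Fintype A] (c : ℕ) (hc : 1 ≤ c) (f : ℕ → ℕ) (h0 : f 0 = 1)
    (h1 : f 1 ≤ Fintype.card A) (hc1 : c < f 1)
    (h2 : ∀ n, 2 * f (n + 1) + f 1 * (c - 1) * c ^ n ≤ f (n + 2) + f n ∧
      f (n + 2) + f n ≤ 2 * f (n + 1) + (f 1 - 1) * c ^ (n + 1))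
    (h3 : c = 1 ∨ ∀ N, ∃ n, N ≤ n ∧ 2 * f (n + 1) + f 1 * (c - 1) * c ^ n < f (n + 2) + f n) :
    ∃ u : ℕ → A, Rec u ∧ ∀ n, complexity u n = f n :=
  Pool.Agent.Helper79.DR.second_diff_exp A c hc f h0 h1 hc1 h2 h3

end Pool.Agent.Results.MP_7c7486_co.SecondDifferences
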